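import Pool.Agent.V5helper51.MT.Stm

/-!
# Job MV of project MT: the mean value over a cube of polynomials
-/

set_option autoImplicit false

open Finset MeasureTheory

namespace Pool.Agent.V5helper62.MT

open Pool.Agent.V5helper51.MT

/-- differences of the lower power sums -/
def hh {k : ℕ} (x y : Fin k → ℕ) (j : Fin (k - 1)) : ℤ :=
  ∑ i, ((x i : ℤ) ^ ((j : ℕ) + 1) - (y i : ℤ) ^ ((j : ℕ) + 1))

/-- difference of the top power sums -/
def ht {k : ℕ} (x y : Fin k → ℕ) : ℤ := ∑ i, ((x i : ℤ) ^ k - (y i : ℤ) ^ k)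

/-- size of the lower power sums -/
def DD {k : ℕ} (x y : Fin k → ℕ) : ℕ := max 1 (univ.sup fun j => (hh x y j).natAbs)

/-- the polynomials of the cube for which the pair is a solution -/
def EE (k q A : ℕ) (x y : Fin k → ℕ) : Set (Fin (k - 1) → ℝ) :=
  {α | α ∈ cube k A ∧ ∑ i, a k q α (x i) = ∑ i, a k q α (y i)}

lemma one_le_DD {k : ℕ} (x y : Fin k → ℕ) : 1 ≤ DD x y := le_max_left _ _

lemma hh_le_DD {k : ℕ} (x y : Fin k → ℕ) (j : Fin (k - 1)) :
    |(hh x y j : ℝ)| ≤ DD x y := by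
  have h1 : (hh x y j).natAbs ≤ DD x y :=
    (Finset.le_sup (f := fun j => (hh x y j).natAbs) (Finset.mem_univ j)).trans
      (le_max_right _ _)
  have h2 : |(hh x y j : ℝ)| = ((hh x y j).natAbs : ℝ) := by
    rw [Nat.cast_natAbs, Int.cast_abs]
  rw [h2]
  exact_mod_cast h1

lemma DD_cases {k : ℕ} (hk : 2 ≤ k) (x y : Fin k → ℕ) :
    DD x y = 1 ∨ ∃ j, hh x y j ≠ 0 ∧ (DD x y : ℝ) = |(hh x y j : ℝ)| := by
  obtain ⟨j, -, hj⟩ := Finset.exists_mem_eq_sup (univ : Finset (Fin (k - 1)))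
    ⟨⟨0, by omega⟩, Finset.mem_univ _⟩ (fun j => (hh x y j).natAbs)
  unfold DD
  rw [hj]
  rcases le_or_gt ((hh x y j).natAbs) 1 with h | h
  · left
    exact max_eq_left h
  · right
    refine ⟨j, ?_, ?_⟩
    · intro h0
      simp [h0] at h
    · rw [max_eq_right h.le, Nat.cast_natAbs, Int.cast_abs]

lemma cube_eq (k A : ℕ) :
    cube k A = Set.Icc (fun _ => -(A : ℝ)) (fun _ => (A : ℝ)) := by
  ext α
  simp only [cube, Set.mem_ofPred_eq, Set.mem_Icc, Pi.le_def, abs_le]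
  exact forall_and

lemma vol_cube (k A : ℕ) : volume.real (cube k A) = (2 * (A : ℝ)) ^ (k - 1) := by
  rw [cube_eq, Measure.real, Real.volume_Icc_pi_toReal]
  · simp only [Finset.prod_const, Finset.card_univ, Fintype.card_fin]
    congr 1
    ring
  · intro i
    have : (0 : ℝ) ≤ A := Nat.cast_nonneg _
    show -(A : ℝ) ≤ A
    linarith

lemma vol_cube_ne (k A : ℕ) : volume (cube k A) ≠ ⊤ := by
  rw [cube_eq]
  exact isCompact_Icc.measure_lt_top.ne

lemma sum_g {k : ℕ} (α : Fin (k - 1) → ℝ) (z : Fin k → ℕ) :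
    ∑ i, g k α (z i) = ∑ j, α j * ∑ i, (z i : ℝ) ^ ((j : ℕ) + 1) := by
  simp only [g, Finset.mul_sum]
  exact Finset.sum_comm

lemma eq_imp {k q : ℕ} (hq : 1 ≤ q) (α : Fin (k - 1) → ℝ) (x y : Fin k → ℕ)
    (h : ∑ i, a k q α (x i) = ∑ i, a k q α (y i)) :
    |(ht x y : ℝ) / q + ∑ j, α j * (hh x y j : ℝ)| ≤ k := by
  have hq' : (0 : ℝ) < q := by exact_mod_cast hq
  have h1 : ∑ i, ((x i : ℝ) ^ k + q * (⌊g k α (x i)⌋ : ℝ)) =
      ∑ i, ((y i : ℝ) ^ k + q * (⌊g k α (y i)⌋ : ℝ)) := by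
    have := congrArg (fun z : ℤ => (z : ℝ)) h
    simp only [a] at this
    push_cast at this
    exact this
  rw [Finset.sum_add_distrib, Finset.sum_add_distrib, ← Finset.mul_sum, ← Finset.mul_sum] at h1
  have h2 : (ht x y : ℝ) = ∑ i, (x i : ℝ) ^ k - ∑ i, (y i : ℝ) ^ k := by
    simp only [ht]
    push_cast
    rw [Finset.sum_sub_distrib]
  have h3 : ∑ j, α j * (hh x y j : ℝ) = ∑ i, g k α (x i) - ∑ i, g k α (y i) := by
    rw [sum_g, sum_g, ← Finset.sum_sub_distrib]
    refine Finset.sum_congr rfl fun j _ => ?_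
    simp only [hh]
    push_cast
    rw [Finset.sum_sub_distrib]
    ring
  have h4 : (ht x y : ℝ) / q = ∑ i, (⌊g k α (y i)⌋ : ℝ) - ∑ i, (⌊g k α (x i)⌋ : ℝ) := by
    rw [div_eq_iff hq'.ne', h2]
    linarith
  have h5 : (ht x y : ℝ) / q + ∑ j, α j * (hh x y j : ℝ) =
      ∑ i : Fin k, (Int.fract (g k α (x i)) - Int.fract (g k α (y i))) := by
    rw [h4, h3]
    simp only [Int.fract, Finset.sum_sub_distrib]
    ring
  rw [h5]
  calc |∑ i : Fin k, (Int.fract (g k α (x i)) - Int.fract (g k α (y i)))| ≤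
        ∑ i : Fin k, |Int.fract (g k α (x i)) - Int.fract (g k α (y i))| :=
        Finset.abs_sum_le_sum_abs _ _
    _ ≤ ∑ i : Fin k, (1 : ℝ) := Finset.sum_le_sum fun i _ => by
        rw [abs_le]
        have a1 := Int.fract_nonneg (g k α (x i))
        have a2 := (Int.fract_lt_one (g k α (x i))).le
        have b1 := Int.fract_nonneg (g k α (y i))
        have b2 := (Int.fract_lt_one (g k α (y i))).le
        constructor <;> linarith
    _ = k := by simp

lemma vol_le (hPR : S_PR) {k q A : ℕ} (hk2 : 2 ≤ k) (hq : 1 ≤ q) (hA : 1 ≤ A)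
    (x y : Fin k → ℕ) :
    volume.real (EE k q A x y) ≤ ((2 * (A : ℝ)) ^ (k - 1) * (2 * k)) / DD x y := by
  have hA' : (1 : ℝ) ≤ A := by exact_mod_cast hA
  have hk' : (2 : ℝ) ≤ k := by exact_mod_cast hk2
  have hD : (1 : ℝ) ≤ DD x y := by exact_mod_cast one_le_DD x y
  rcases DD_cases hk2 x y with h | ⟨j, hj0, hj⟩
  · rw [h, Nat.cast_one, div_one]
    calc volume.real (EE k q A x y) ≤ volume.real (cube k A) :=
          measureReal_mono (fun α hα => hα.1) (vol_cube_ne k A)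
      _ = (2 * (A : ℝ)) ^ (k - 1) := vol_cube k A
      _ ≤ (2 * (A : ℝ)) ^ (k - 1) * (2 * k) :=
          le_mul_of_one_le_right (by positivity) (by linarith)
  · have h1 := hPR k A hk2 hA (hh x y) j hj0 ((ht x y : ℝ) / q) k (Nat.cast_nonneg _)
    rw [← hj] at h1
    calc volume.real (EE k q A x y) ≤ volume.real {α : Fin (k - 1) → ℝ | α ∈ cube k A ∧
            |(ht x y : ℝ) / q + ∑ i, α i * (hh x y i : ℝ)| ≤ k} :=
          measureReal_mono (fun α hα => ⟨hα.1, eq_imp hq α x y hα.2⟩)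
            (ne_top_of_le_ne_top (vol_cube_ne k A) (measure_mono fun α hα => hα.1))
      _ ≤ (2 * (A : ℝ)) ^ (k - 2) * (2 * k / DD x y) := h1
      _ ≤ ((2 * (A : ℝ)) ^ (k - 1) * (2 * k)) / DD x y := by
        rw [mul_div_assoc ((2 * (A : ℝ)) ^ (k - 1))]
        apply mul_le_mul_of_nonneg_right _ (by positivity)
        exact pow_le_pow_right₀ (by linarith) (by omega)

lemma ht_le {k q A : ℕ} (hq : 1 ≤ q) (x y : Fin k → ℕ) (hne : (EE k q A x y).Nonempty) :
    |(ht x y : ℝ)| ≤ q * k * (1 + A) * DD x y := by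
  obtain ⟨α, hα, he⟩ := hne
  have h1 := eq_imp hq α x y he
  have hq' : (0 : ℝ) < q := by exact_mod_cast hq
  have hD : (1 : ℝ) ≤ DD x y := by exact_mod_cast one_le_DD x y
  have h2 : |∑ j, α j * (hh x y j : ℝ)| ≤ k * (A * DD x y) := by
    calc |∑ j, α j * (hh x y j : ℝ)| ≤ ∑ j : Fin (k - 1), |α j * (hh x y j : ℝ)| :=
          Finset.abs_sum_le_sum_abs _ _
      _ ≤ ∑ j : Fin (k - 1), (A * DD x y : ℝ) := Finset.sum_le_sum fun j _ => by
          rw [abs_mul]
          exact mul_le_mul (hα j) (hh_le_DD x y j) (abs_nonneg _) (Nat.cast_nonneg _)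
      _ = ((k - 1 : ℕ) : ℝ) * (A * DD x y) := by simp
      _ ≤ k * (A * DD x y) := by
          apply mul_le_mul_of_nonneg_right _ (by positivity)
          exact_mod_cast Nat.sub_le k 1
  have h3 : |(ht x y : ℝ) / q| ≤ k + k * (A * DD x y) := by
    rw [abs_le] at h1 h2 ⊢
    constructor <;> linarith [h1.1, h1.2, h2.1, h2.2]
  rw [abs_div, abs_of_pos hq', div_le_iff₀ hq'] at h3
  have hk0 : (0 : ℝ) ≤ k := Nat.cast_nonneg _
  have h4 : (k : ℝ) ≤ k * DD x y := le_mul_of_one_le_right hk0 hD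
  calc |(ht x y : ℝ)| ≤ (k + k * (A * DD x y)) * q := h3
    _ ≤ (k * DD x y + k * (A * DD x y)) * q :=
        mul_le_mul_of_nonneg_right (by linarith) hq'.le
    _ = q * k * (1 + A) * DD x y := by ring

lemma box_le {k P : ℕ} {x : Fin k → ℕ} (hx : x ∈ box k P) (i : Fin k) :
    x i ≤ (2 * k + 1) * P := by
  have h1 := Fintype.mem_piFinset.1 hx i
  rw [blk, Finset.mem_Icc] at h1
  refine h1.2.trans (Nat.mul_le_mul_right _ ?_)
  have := i.2
  omega

lemma DD_le {k P : ℕ} (hP : 2 ≤ P) {x y : Fin k → ℕ} (hx : x ∈ box k P)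
    (hy : y ∈ box k P) : DD x y ≤ P ^ (k + (2 * k + 2) * k) := by
  have hb : ∀ z : Fin k → ℕ, z ∈ box k P → ∀ i, z i ≤ P ^ (2 * k + 2) := by
    intro z hz i
    calc z i ≤ (2 * k + 1) * P := box_le hz i
      _ ≤ P ^ (2 * k + 1) * P :=
          Nat.mul_le_mul_right _ ((Nat.lt_two_pow_self).le.trans (Nat.pow_le_pow_left hP _))
      _ = P ^ (2 * k + 2) := by rw [← pow_succ]
  have hP0 : 0 < P := by omega
  have h1 : ∀ j : Fin (k - 1), (hh x y j).natAbs ≤ P ^ (k + (2 * k + 2) * k) := by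
    intro j
    have h2 : |hh x y j| ≤ k * (P : ℤ) ^ ((2 * k + 2) * k) := by
      calc |hh x y j| ≤
            ∑ i : Fin k, |(x i : ℤ) ^ ((j : ℕ) + 1) - (y i : ℤ) ^ ((j : ℕ) + 1)| :=
            Finset.abs_sum_le_sum_abs _ _
        _ ≤ ∑ i : Fin k, (P : ℤ) ^ ((2 * k + 2) * k) := Finset.sum_le_sum fun i _ => by
            have key : ∀ z : Fin k → ℕ, z ∈ box k P → (0 : ℤ) ≤ (z i : ℤ) ^ ((j : ℕ) + 1) ∧
                (z i : ℤ) ^ ((j : ℕ) + 1) ≤ (P : ℤ) ^ ((2 * k + 2) * k) := by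
              intro z hz
              refine ⟨by positivity, ?_⟩
              have : z i ^ ((j : ℕ) + 1) ≤ P ^ ((2 * k + 2) * k) := by
                calc z i ^ ((j : ℕ) + 1) ≤ (P ^ (2 * k + 2)) ^ ((j : ℕ) + 1) :=
                      Nat.pow_le_pow_left (hb z hz i) _
                  _ ≤ (P ^ (2 * k + 2)) ^ k :=
                      Nat.pow_le_pow_right (by positivity) (by have := j.2; omega)
                  _ = P ^ ((2 * k + 2) * k) := by rw [← pow_mul]
              exact_mod_cast this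
            have kx := key x hx
            have ky := key y hy
            rw [abs_le]
            constructor <;> linarith [kx.1, kx.2, ky.1, ky.2]
        _ = k * (P : ℤ) ^ ((2 * k + 2) * k) := by simp
    have h3 : (k : ℤ) ≤ (P : ℤ) ^ k := by
      have : k ≤ P ^ k := (Nat.lt_two_pow_self).le.trans (Nat.pow_le_pow_left hP _)
      exact_mod_cast this
    have h4 : |hh x y j| ≤ (P : ℤ) ^ (k + (2 * k + 2) * k) := by
      rw [pow_add]
      exact h2.trans (mul_le_mul_of_nonneg_right h3 (by positivity))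
    have h5 : ((hh x y j).natAbs : ℤ) ≤ (P : ℤ) ^ (k + (2 * k + 2) * k) := by
      rw [Int.natCast_natAbs]
      exact h4
    exact_mod_cast h5
  unfold DD
  exact max_le (Nat.one_le_pow _ _ (by omega)) (Finset.sup_le fun j _ => h1 j)

lemma card_box (k P : ℕ) : (box k P).card = (P + 1) ^ k := by
  show (Fintype.piFinset fun i : Fin k => blk P i).card = (P + 1) ^ k
  rw [Fintype.card_piFinset]
  have h : ∀ i : Fin k, (blk P (i : ℕ)).card = P + 1 := by
    intro i
    unfold blk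
    rw [Nat.card_Icc]
    have : (2 * (i : ℕ) + 3) * P = 2 * ((i : ℕ) + 1) * P + P := by ring
    omega
  simp [h]

open scoped Classical in
lemma fixed_y (hPR : S_PR) {k q A : ℕ} (hk2 : 2 ≤ k) (hq : 1 ≤ q) (hA : 1 ≤ A) {C : ℝ}
    (hCNT : ∀ P : ℕ, 1 ≤ P → ∀ D : ℝ, 1 ≤ D → ∀ c : ℕ → ℝ,
      (((box k P).filter fun x : Fin k → ℕ =>
        ∀ j ∈ Icc 1 k, |∑ i, (x i : ℝ) ^ j - c j| ≤ D).card : ℝ) ≤ C * D)
    {P : ℕ} (hP : 2 ≤ P) {y : Fin k → ℕ} (hy : y ∈ box k P) :
    ∑ x ∈ box k P, volume.real (EE k q A x y) ≤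
      ((Nat.log 2 (P ^ (k + (2 * k + 2) * k)) : ℝ) + 1) *
        (2 * C * (q * k * (1 + A)) * ((2 * (A : ℝ)) ^ (k - 1) * (2 * k))) := by
  have hA' : (1 : ℝ) ≤ A := by exact_mod_cast hA
  have hk' : (2 : ℝ) ≤ k := by exact_mod_cast hk2
  have hq' : (1 : ℝ) ≤ q := by exact_mod_cast hq
  set C₁ : ℝ := q * k * (1 + A) with hC₁
  have hC₁1 : 1 ≤ C₁ := by
    have h1 : (1 : ℝ) ≤ q * k := by nlinarith
    nlinarith
  set C₂ : ℝ := (2 * (A : ℝ)) ^ (k - 1) * (2 * k) with hC₂
  have hC₂0 : 0 ≤ C₂ := by positivity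
  set N := Nat.log 2 (P ^ (k + (2 * k + 2) * k)) with hN
  have hmaps : ∀ x ∈ box k P, Nat.log 2 (DD x y) ∈ range (N + 1) := by
    intro x hx
    rw [Finset.mem_range, Nat.lt_succ_iff]
    exact Nat.log_mono_right (DD_le hP hx hy)
  rw [← Finset.sum_fiberwise_of_maps_to hmaps]
  have hmain : ∀ i ∈ range (N + 1),
      ∑ x ∈ box k P with Nat.log 2 (DD x y) = i, volume.real (EE k q A x y) ≤
        2 * C * C₁ * C₂ := by
    intro i _
    set cond : (Fin k → ℕ) → Prop := fun x =>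
      ∀ j ∈ Icc 1 k, |∑ l, (x l : ℝ) ^ j - (fun j => ∑ l, (y l : ℝ) ^ j) j| ≤
        C₁ * 2 ^ (i + 1) with hcond
    have hpt : ∀ x ∈ (box k P).filter (fun x => Nat.log 2 (DD x y) = i),
        volume.real (EE k q A x y) ≤ if cond x then C₂ / 2 ^ i else 0 := by
      intro x hx
      rw [Finset.mem_filter] at hx
      have hD1 : (2 : ℝ) ^ i ≤ DD x y := by
        have := Nat.pow_log_le_self 2 (x := DD x y) (by have := one_le_DD x y; omega)
        rw [hx.2] at this
        exact_mod_cast this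
      have hD2 : (DD x y : ℝ) ≤ 2 ^ (i + 1) := by
        have := Nat.lt_pow_succ_log_self (b := 2) (by norm_num) (DD x y)
        rw [hx.2] at this
        exact_mod_cast this.le
      split_ifs with hc
      · refine (vol_le hPR hk2 hq hA x y).trans ?_
        exact div_le_div_of_nonneg_left hC₂0 (by positivity) hD1
      · have hemp : EE k q A x y = ∅ := by
          by_contra hne
          apply hc
          have hne' : (EE k q A x y).Nonempty := Set.nonempty_iff_ne_empty.2 hne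
          intro j hj
          rw [Finset.mem_Icc] at hj
          show |∑ l, (x l : ℝ) ^ j - ∑ l, (y l : ℝ) ^ j| ≤ C₁ * 2 ^ (i + 1)
          rcases eq_or_lt_of_le hj.2 with h | h
          · have h1 := ht_le hq x y hne'
            have h2 : (ht x y : ℝ) = ∑ l, (x l : ℝ) ^ k - ∑ l, (y l : ℝ) ^ k := by
              simp only [ht]
              push_cast
              rw [Finset.sum_sub_distrib]
            rw [h, ← h2]
            exact h1.trans (mul_le_mul_of_nonneg_left hD2 (by linarith))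
          · have h1 := hh_le_DD x y ⟨j - 1, by omega⟩
            have h2 : (hh x y ⟨j - 1, by omega⟩ : ℝ) =
                ∑ l, (x l : ℝ) ^ j - ∑ l, (y l : ℝ) ^ j := by
              simp only [hh]
              push_cast
              rw [Finset.sum_sub_distrib, Nat.sub_add_cancel hj.1]
            rw [← h2]
            calc _ ≤ (DD x y : ℝ) := h1
              _ ≤ 2 ^ (i + 1) := hD2
              _ ≤ C₁ * 2 ^ (i + 1) := le_mul_of_one_le_left (by positivity) hC₁1
        rw [hemp]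
        simp
    have hcard : (((box k P).filter cond).card : ℝ) ≤ C * (C₁ * 2 ^ (i + 1)) := by
      have h1 : (1 : ℝ) ≤ C₁ * 2 ^ (i + 1) := by
        have : (1 : ℝ) ≤ 2 ^ (i + 1) := one_le_pow₀ (by norm_num)
        nlinarith
      have h2 := hCNT P (by omega) (C₁ * 2 ^ (i + 1)) h1 (fun j => ∑ l, (y l : ℝ) ^ j)
      convert h2 using 3
      ext z
      simp only [Finset.mem_filter, hcond]
    calc ∑ x ∈ box k P with Nat.log 2 (DD x y) = i, volume.real (EE k q A x y) ≤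
          ∑ x ∈ box k P with Nat.log 2 (DD x y) = i, (if cond x then C₂ / 2 ^ i else 0) :=
          Finset.sum_le_sum hpt
      _ ≤ ∑ x ∈ box k P, (if cond x then C₂ / 2 ^ i else 0) :=
          Finset.sum_le_sum_of_subset_of_nonneg (Finset.filter_subset _ _)
            (fun x _ _ => by split_ifs <;> positivity)
      _ = (((box k P).filter cond).card : ℝ) * (C₂ / 2 ^ i) := by
          rw [← Finset.sum_filter, Finset.sum_const, nsmul_eq_mul]
      _ ≤ (C * (C₁ * 2 ^ (i + 1))) * (C₂ / 2 ^ i) :=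
          mul_le_mul_of_nonneg_right hcard (by positivity)
      _ = 2 * C * C₁ * C₂ := by
          rw [pow_succ]
          field_simp
  calc _ ≤ ∑ i ∈ range (N + 1), (2 * C * C₁ * C₂) := Finset.sum_le_sum hmain
    _ = ((N : ℝ) + 1) * (2 * C * C₁ * C₂) := by simp

theorem t_MV (hCNT : S_CNT) (hPR : S_PR) : S_MV := by
  intro k q A hk2 hq hA
  obtain ⟨C, hC, hcnt⟩ := hCNT k (by omega)
  have hA' : (1 : ℝ) ≤ A := by exact_mod_cast hA
  have hk' : (2 : ℝ) ≤ k := by exact_mod_cast hk2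
  have hq' : (1 : ℝ) ≤ q := by exact_mod_cast hq
  set K0 := k + (2 * k + 2) * k with hK0
  set B : ℝ := 2 * C * (q * k * (1 + A)) * ((2 * (A : ℝ)) ^ (k - 1) * (2 * k)) with hB
  have hBpos : 0 < B := by positivity
  have hlog2 : 0 < Real.log 2 := Real.log_pos (by norm_num)
  refine ⟨2 ^ k * (((K0 : ℝ) + 1) / Real.log 2) * B, by positivity, ?_⟩
  intro P hP
  have hP' : (2 : ℝ) ≤ P := by exact_mod_cast hP
  have hlogP : Real.log 2 ≤ Real.log P := Real.log_le_log (by norm_num) hP'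
  rw [Finset.sum_comm]
  have hN : (Nat.log 2 (P ^ K0) : ℝ) + 1 ≤ ((K0 : ℝ) + 1) / Real.log 2 * Real.log P := by
    have h1 : 2 ^ (Nat.log 2 (P ^ K0)) ≤ P ^ K0 :=
      Nat.pow_log_le_self 2 (pow_ne_zero _ (by omega))
    have h2 : ((2 : ℝ)) ^ (Nat.log 2 (P ^ K0)) ≤ (P : ℝ) ^ K0 := by exact_mod_cast h1
    have h3 := Real.log_le_log (by positivity) h2
    rw [Real.log_pow, Real.log_pow] at h3
    rw [div_mul_eq_mul_div, le_div_iff₀ hlog2]
    linarith
  have hcard : ((box k P).card : ℝ) ≤ 2 ^ k * (P : ℝ) ^ k := by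
    rw [card_box, ← mul_pow]
    push_cast
    exact pow_le_pow_left₀ (by positivity) (by linarith) k
  calc ∑ y ∈ box k P, ∑ x ∈ box k P, volume.real {α : Fin (k - 1) → ℝ | α ∈ cube k A ∧
          ∑ i, a k q α (x i) = ∑ i, a k q α (y i)} ≤
        ∑ y ∈ box k P, ((Nat.log 2 (P ^ K0) : ℝ) + 1) * B :=
        Finset.sum_le_sum fun y hy => fixed_y hPR hk2 hq hA hcnt hP hy
    _ = ((box k P).card : ℝ) * (((Nat.log 2 (P ^ K0) : ℝ) + 1) * B) := by
        rw [Finset.sum_const, nsmul_eq_mul]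
    _ ≤ (2 ^ k * (P : ℝ) ^ k) * ((((K0 : ℝ) + 1) / Real.log 2 * Real.log P) * B) := by
        apply mul_le_mul hcard _ (by positivity) (by positivity)
        exact mul_le_mul_of_nonneg_right hN hBpos.le
    _ = 2 ^ k * (((K0 : ℝ) + 1) / Real.log 2) * B * (P : ℝ) ^ k * Real.log P := by ring

end Pool.Agent.V5helper62.MT
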